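import Pool.Agent.H18P1.T1
import Pool.Agent.HStar.Asm2

/-!
# Orders `k = 6, 7` on `[7/10, 1)`
-/

set_option autoImplicit false

namespace Pool.Agent.H18P1

open Set Polynomial Pool.Agent.HHalf Pool.Agent.HStar Pool.Agent.HFin

theorem FE_lo {N : ℕ} {x a u0 : ℝ} (hN : 0 < (N:ℝ)) (hu : 1 ≤ u0 * N) (_hu0 : 0 ≤ u0)
    (ha : 0 ≤ a) (hx : 1 ≤ 2 * x) :
    4 * a - 2 * x - 2 * a ^ 2 * u0 - a ^ 2 * u0 ^ 2 / 2 ≤ FE N x (a / N - 1) := by
  set u : ℝ := 1 / N with hudef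
  have hNu : (N:ℝ) * u = 1 := by rw [hudef]; field_simp
  have hu1 : 0 ≤ u := by positivity
  have hle : u ≤ u0 := by
    rw [hudef, div_le_iff₀ hN]; exact hu
  have e : a / N = a * u := by rw [hudef]; ring
  rw [e]
  unfold FE
  have h1 : 0 ≤ 2 * x + (a * u - 1) := by
    have := mul_nonneg ha hu1
    linarith
  rw [abs_of_nonneg h1]
  have e2 : 2 * (N:ℝ) * (1 - (a * u - 1) ^ 2) - (1 + (a * u - 1) ^ 2) / 2 - (2 * x + (a * u - 1)) =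
      4 * a - 2 * x - 2 * a ^ 2 * u - a ^ 2 * u ^ 2 / 2 := by
    linear_combination (4 * a - 2 * a ^ 2 * u) * hNu
  rw [e2]
  have h2 : a ^ 2 * u ≤ a ^ 2 * u0 := mul_le_mul_of_nonneg_left hle (sq_nonneg a)
  have h3 : a ^ 2 * u ^ 2 ≤ a ^ 2 * u0 ^ 2 :=
    mul_le_mul_of_nonneg_left (pow_le_pow_left₀ hu1 hle 2) (sq_nonneg a)
  linarith

theorem FE_hi {N : ℕ} {x a u0 : ℝ} (hN : 0 < (N:ℝ)) (hu : 1 ≤ u0 * N) (_hu0 : 0 ≤ u0)
    (ha : 1 ≤ a) (haN : a ≤ N) (hx : 0 ≤ x) :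
    4 * a - 2 - 2 * x - 2 * (a ^ 2 - a) * u0 - a ^ 2 * u0 ^ 2 / 2 ≤ FE N x (1 - a / N) := by
  set u : ℝ := 1 / N with hudef
  have hNu : (N:ℝ) * u = 1 := by rw [hudef]; field_simp
  have hu1 : 0 ≤ u := by positivity
  have hle : u ≤ u0 := by
    rw [hudef, div_le_iff₀ hN]; exact hu
  have e : a / N = a * u := by rw [hudef]; ring
  have hau : a * u ≤ 1 := by rw [← e, div_le_one hN]; exact haN
  rw [e]
  unfold FE
  have h1 : 0 ≤ 2 * x + (1 - a * u) := by linarith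
  rw [abs_of_nonneg h1]
  have e2 : 2 * (N:ℝ) * (1 - (1 - a * u) ^ 2) - (1 + (1 - a * u) ^ 2) / 2 - (2 * x + (1 - a * u)) =
      4 * a - 2 - 2 * x - 2 * (a ^ 2 - a) * u - a ^ 2 * u ^ 2 / 2 := by
    linear_combination (4 * a - 2 * a ^ 2 * u) * hNu
  rw [e2]
  have h4 : 0 ≤ a ^ 2 - a := by nlinarith
  have h2 : (a ^ 2 - a) * u ≤ (a ^ 2 - a) * u0 := mul_le_mul_of_nonneg_left hle h4
  have h3 : a ^ 2 * u ^ 2 ≤ a ^ 2 * u0 ^ 2 :=
    mul_le_mul_of_nonneg_left (pow_le_pow_left₀ hu1 hle 2) (sq_nonneg a)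
  linarith

theorem cth_ge {N k : ℕ} (hk : 6 ≤ k) : (k:ℝ) + 1 / 4 ≤ thr N k := by
  unfold thr Pool.Agent.HHalfC.cth
  rw [if_neg (by omega), if_neg (by omega), if_neg (by omega), if_neg (by omega)]
  split_ifs <;> norm_num

theorem bal_eq {k : ℕ} (hk : 6 ≤ k) : Pool.Agent.HHalfB.bal k = (k:ℝ) - 2 := by
  unfold Pool.Agent.HHalfB.bal
  rw [if_neg (by omega), if_neg (by omega), if_neg (by omega), if_neg (by omega)]

/-- `λ`-form for `k ≥ 6`, `x ≥ 7/10`. -/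
theorem wrap {N k : ℕ} (hk : 6 ≤ k) (hkN : k + 1 ≤ N) {L : Fin N → ℂ} (hL : ∀ a, ‖L a‖ ≤ 1)
    {x : ℝ} (hx7 : 7 / 10 ≤ x) (hx1 : x < 1) (h1 : thr N k < ∑ a, (1 - (L a).re))
    (h2 : Pool.Agent.HHalfB.bal k < ∑ a, (1 + (L a).re)) {E : ℝ} {b lam : ℕ → ℝ}
    (hb : ∀ M, IsM L k M → ∀ j, 1 ≤ j → j ≤ k → |hv L (k - j) x| ≤ b j * M)
    (hb0 : ∀ j, 0 ≤ b j) (hlam : ∀ j, 0 ≤ lam j) (hlam1 : lam 1 = 0)
    (hE1 : 2 * E ≤ 4 * ((k:ℝ) - 2 + x) - 2 * x - 2 * ((k:ℝ) - 2 + x) ^ 2 * (1 / ((k:ℝ) + 1)) -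
      ((k:ℝ) - 2 + x) ^ 2 * (1 / ((k:ℝ) + 1)) ^ 2 / 2)
    (hE2 : 2 * E ≤ 4 * ((k:ℝ) + 1 / 4 - x) - 2 - 2 * x -
      2 * (((k:ℝ) + 1 / 4 - x) ^ 2 - ((k:ℝ) + 1 / 4 - x)) * (1 / ((k:ℝ) + 1)) -
      ((k:ℝ) + 1 / 4 - x) ^ 2 * (1 / ((k:ℝ) + 1)) ^ 2 / 2)
    (hb1 : b 1 + 2 * lam 2 ≤ E)
    (hbp : ∀ j, 2 ≤ j → j ≤ k → b j + (j + 1) * lam (j + 1) ≤
      lam j * (2 * ((k:ℝ) + 1 / 4) - 1 - (2 * j + 1) * x) + j * (1 - x ^ 2) * lam (j - 1)) :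
    PW L k x := by
  have hk0 : (6:ℝ) ≤ k := by exact_mod_cast hk
  have hN : (k:ℝ) + 1 ≤ N := by exact_mod_cast hkN
  have hN0 : (0:ℝ) < N := by linarith
  have hu : 1 ≤ (1 / ((k:ℝ) + 1)) * N := by
    rw [one_div, inv_mul_eq_div, le_div_iff₀ (by linarith)]
    linarith
  have hu0 : 0 ≤ 1 / ((k:ℝ) + 1) := by positivity
  refine pw_lam (by omega) (by omega) hL (by linarith) hx1 (tp := (k:ℝ) + 1 / 4)
    (tm := (k:ℝ) - 2) (E := E) ((cth_ge hk).trans h1.le) ((bal_eq hk).symm.le.trans h2.le)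
    (b := b) (lam := lam) hb hb0 hlam hlam1 ?_ ?_ hb1 ?_ ?_
  · exact hE1.trans (FE_lo hN0 hu hu0 (by linarith) (by linarith))
  · exact hE2.trans (FE_hi hN0 hu hu0 (by linarith) (by linarith) (by linarith))
  · intro j h2 hj
    exact hbp j h2 hj
  · intro j h2 hj
    refine (hbp j h2 hj).trans (add_le_add (mul_le_mul_of_nonneg_left ?_ (hlam j)) le_rfl)
    refine le_trans ?_ (Dm_ge _ (by linarith : (0:ℝ) ≤ x) hx1.le j)
    have h2' : (2:ℝ) ≤ j := by exact_mod_cast h2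
    nlinarith

theorem gg_6_0 : gg 6 0 = 1 := by
  unfold gg; norm_num [Nat.choose]

theorem gg_6_1 : gg 6 1 = 2/9 := by
  unfold gg; norm_num [Nat.choose]

theorem gg_6_2 : gg 6 2 = 4/45 := by
  unfold gg; norm_num [Nat.choose]

theorem gg_6_3 : gg 6 3 = 8/165 := by
  unfold gg; norm_num [Nat.choose]

theorem gg_6_4 : gg 6 4 = 16/495 := by
  unfold gg; norm_num [Nat.choose]

theorem gg_6_5 : gg 6 5 = 32/1287 := by
  unfold gg; norm_num [Nat.choose]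

theorem gg_6_6 : gg 6 6 = 64/3003 := by
  unfold gg; norm_num [Nat.choose]

theorem gg_7_0 : gg 7 0 = 1 := by
  unfold gg; norm_num [Nat.choose]

theorem gg_7_1 : gg 7 1 = 1/5 := by
  unfold gg; norm_num [Nat.choose]

theorem gg_7_2 : gg 7 2 = 4/55 := by
  unfold gg; norm_num [Nat.choose]

theorem gg_7_3 : gg 7 3 = 2/55 := by
  unfold gg; norm_num [Nat.choose]

theorem gg_7_4 : gg 7 4 = 16/715 := by
  unfold gg; norm_num [Nat.choose]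

theorem gg_7_5 : gg 7 5 = 16/1001 := by
  unfold gg; norm_num [Nat.choose]

theorem gg_7_6 : gg 7 6 = 64/5005 := by
  unfold gg; norm_num [Nat.choose]

theorem gg_7_7 : gg 7 7 = 8/715 := by
  unfold gg; norm_num [Nat.choose]

theorem bb_6_1 (s : ℝ) : bb 6 (1 - s) 1 = (4/3) + 6 * s := by
  unfold bb
  simp only [Finset.sum_range_succ, Finset.sum_range_zero, sub_sub_cancel, Nat.sub_zero, Nat.sub_self,
    gg_6_0, gg_6_1]
  norm_num [Nat.choose]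

theorem bb_6_2 (s : ℝ) : bb 6 (1 - s) 2 = (4/3) + (20/3) * s + 15 * s ^ 2 := by
  unfold bb
  simp only [Finset.sum_range_succ, Finset.sum_range_zero, sub_sub_cancel, Nat.sub_zero,
    Nat.reduceSub, Nat.sub_self,
    gg_6_0, gg_6_1, gg_6_2]
  norm_num [Nat.choose]
  ring

theorem bb_6_3 (s : ℝ) : bb 6 (1 - s) 3 = (32/33) + (16/3) * s + (40/3) * s ^ 2 + 20 * s ^ 3 := by
  unfold bb
  simp only [Finset.sum_range_succ, Finset.sum_range_zero, sub_sub_cancel, Nat.sub_zero,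
    Nat.reduceSub, Nat.sub_self,
    gg_6_0, gg_6_1, gg_6_2, gg_6_3]
  norm_num [Nat.choose]
  ring

theorem bb_6_4 (s : ℝ) : bb 6 (1 - s) 4 = (16/33) + (32/11) * s + 8 * s ^ 2 + (40/3) * s ^ 3 + 15 * s ^ 4 := by
  unfold bb
  simp only [Finset.sum_range_succ, Finset.sum_range_zero, sub_sub_cancel, Nat.sub_zero,
    Nat.reduceSub, Nat.sub_self,
    gg_6_0, gg_6_1, gg_6_2, gg_6_3, gg_6_4]
  norm_num [Nat.choose]
  ring

theorem bb_6_5 (s : ℝ) : bb 6 (1 - s) 5 = (64/429) + (32/33) * s + (32/11) * s ^ 2 + (16/3) * s ^ 3 + (20/3) * s ^ 4 + 6 * s ^ 5 := by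
  unfold bb
  simp only [Finset.sum_range_succ, Finset.sum_range_zero, sub_sub_cancel, Nat.sub_zero,
    Nat.reduceSub, Nat.sub_self,
    gg_6_0, gg_6_1, gg_6_2, gg_6_3, gg_6_4, gg_6_5]
  norm_num [Nat.choose]
  ring

theorem bb_6_6 (s : ℝ) : bb 6 (1 - s) 6 = (64/3003) + (64/429) * s + (16/33) * s ^ 2 + (32/33) * s ^ 3 + (4/3) * s ^ 4 + (4/3) * s ^ 5 + 1 * s ^ 6 := by
  unfold bb
  simp only [Finset.sum_range_succ, Finset.sum_range_zero, sub_sub_cancel, Nat.sub_zero,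
    Nat.reduceSub, Nat.sub_self,
    gg_6_0, gg_6_1, gg_6_2, gg_6_3, gg_6_4, gg_6_5, gg_6_6]
  norm_num [Nat.choose]
  ring

theorem bb_7_1 (s : ℝ) : bb 7 (1 - s) 1 = (7/5) + 7 * s := by
  unfold bb
  simp only [Finset.sum_range_succ, Finset.sum_range_zero, sub_sub_cancel, Nat.sub_zero, Nat.sub_self,
    gg_7_0, gg_7_1]
  norm_num [Nat.choose]

theorem bb_7_2 (s : ℝ) : bb 7 (1 - s) 2 = (84/55) + (42/5) * s + 21 * s ^ 2 := by
  unfold bb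
  simp only [Finset.sum_range_succ, Finset.sum_range_zero, sub_sub_cancel, Nat.sub_zero,
    Nat.reduceSub, Nat.sub_self,
    gg_7_0, gg_7_1, gg_7_2]
  norm_num [Nat.choose]
  ring

theorem bb_7_3 (s : ℝ) : bb 7 (1 - s) 3 = (14/11) + (84/11) * s + 21 * s ^ 2 + 35 * s ^ 3 := by
  unfold bb
  simp only [Finset.sum_range_succ, Finset.sum_range_zero, sub_sub_cancel, Nat.sub_zero,
    Nat.reduceSub, Nat.sub_self,
    gg_7_0, gg_7_1, gg_7_2, gg_7_3]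
  norm_num [Nat.choose]
  ring

theorem bb_7_4 (s : ℝ) : bb 7 (1 - s) 4 = (112/143) + (56/11) * s + (168/11) * s ^ 2 + 28 * s ^ 3 + 35 * s ^ 4 := by
  unfold bb
  simp only [Finset.sum_range_succ, Finset.sum_range_zero, sub_sub_cancel, Nat.sub_zero,
    Nat.reduceSub, Nat.sub_self,
    gg_7_0, gg_7_1, gg_7_2, gg_7_3, gg_7_4]
  norm_num [Nat.choose]
  ring

theorem bb_7_5 (s : ℝ) : bb 7 (1 - s) 5 = (48/143) + (336/143) * s + (84/11) * s ^ 2 + (168/11) * s ^ 3 + 21 * s ^ 4 + 21 * s ^ 5 := by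
  unfold bb
  simp only [Finset.sum_range_succ, Finset.sum_range_zero, sub_sub_cancel, Nat.sub_zero,
    Nat.reduceSub, Nat.sub_self,
    gg_7_0, gg_7_1, gg_7_2, gg_7_3, gg_7_4, gg_7_5]
  norm_num [Nat.choose]
  ring

theorem bb_7_6 (s : ℝ) : bb 7 (1 - s) 6 = (64/715) + (96/143) * s + (336/143) * s ^ 2 + (56/11) * s ^ 3 + (84/11) * s ^ 4 + (42/5) * s ^ 5 + 7 * s ^ 6 := by
  unfold bb
  simp only [Finset.sum_range_succ, Finset.sum_range_zero, sub_sub_cancel, Nat.sub_zero,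
    Nat.reduceSub, Nat.sub_self,
    gg_7_0, gg_7_1, gg_7_2, gg_7_3, gg_7_4, gg_7_5, gg_7_6]
  norm_num [Nat.choose]
  ring

theorem bb_7_7 (s : ℝ) : bb 7 (1 - s) 7 = (8/715) + (64/715) * s + (48/143) * s ^ 2 + (112/143) * s ^ 3 + (14/11) * s ^ 4 + (84/55) * s ^ 5 + (7/5) * s ^ 6 + 1 * s ^ 7 := by
  unfold bb
  simp only [Finset.sum_range_succ, Finset.sum_range_zero, sub_sub_cancel, Nat.sub_zero,
    Nat.reduceSub, Nat.sub_self,
    gg_7_0, gg_7_1, gg_7_2, gg_7_3, gg_7_4, gg_7_5, gg_7_6, gg_7_7]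
  norm_num [Nat.choose]
  ring

/-- The multipliers, `k = 6`, `s ∈ [1/10, 3/10]`. -/
noncomputable def lam_six_a (j : ℕ) : ℝ :=
  if j = 2 then 19/20 else if j = 3 then 147/200 else if j = 4 then 67/200 else if j = 5 then 3/50 else 0

theorem lam_six_a_nonneg (j : ℕ) : 0 ≤ lam_six_a j := by
  unfold lam_six_a
  split_ifs <;> norm_num

theorem ineq_six_a_2 {s : ℝ} (h0 : 1/10 ≤ s) (h1 : s ≤ 3/10) :
    (4/3) + (20/3) * s + 15 * s ^ 2 + 3 * (147/200) ≤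
      (19/20) * (23/2 - 5 * (1 - s)) + 2 * (1 - (1 - s) ^ 2) * (0) := by
  have hu : 0 ≤ s - 1/10 := by linarith
  have hv : 0 ≤ 3/10 - s := by linarith
  have t0 := mul_nonneg (pow_nonneg hu 0) (pow_nonneg hv 2)
  have t1 := mul_nonneg (pow_nonneg hu 1) (pow_nonneg hv 1)
  have t2 := mul_nonneg (pow_nonneg hu 2) (pow_nonneg hv 0)
  have e : (19/20) * (23/2 - 5 * (1 - s)) + 2 * (1 - (1 - s) ^ 2) * (0) -
      ((4/3) + (20/3) * s + 15 * s ^ 2 + 3 * (147/200)) =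
      (459/8) * ((s - 1/10) ^ 0 * (3/10 - s) ^ 2) + (541/6) * ((s - 1/10) ^ 1 * (3/10 - s) ^ 1) + (427/24) * ((s - 1/10) ^ 2 * (3/10 - s) ^ 0) := by ring
  linarith [e]

theorem ineq_six_a_3 {s : ℝ} (h0 : 1/10 ≤ s) (h1 : s ≤ 3/10) :
    (32/33) + (16/3) * s + (40/3) * s ^ 2 + 20 * s ^ 3 + 4 * (67/200) ≤
      (147/200) * (23/2 - 7 * (1 - s)) + 3 * (1 - (1 - s) ^ 2) * (19/20) := by
  have hu : 0 ≤ s - 1/10 := by linarith
  have hv : 0 ≤ 3/10 - s := by linarith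
  have t0 := mul_nonneg (pow_nonneg hu 0) (pow_nonneg hv 3)
  have t1 := mul_nonneg (pow_nonneg hu 1) (pow_nonneg hv 2)
  have t2 := mul_nonneg (pow_nonneg hu 2) (pow_nonneg hv 1)
  have t3 := mul_nonneg (pow_nonneg hu 3) (pow_nonneg hv 0)
  have e : (147/200) * (23/2 - 7 * (1 - s)) + 3 * (1 - (1 - s) ^ 2) * (19/20) -
      ((32/33) + (16/3) * s + (40/3) * s ^ 2 + 20 * s ^ 3 + 4 * (67/200)) =
      (30077/176) * ((s - 1/10) ^ 0 * (3/10 - s) ^ 3) + (97601/176) * ((s - 1/10) ^ 1 * (3/10 - s) ^ 2) + (256349/528) * ((s - 1/10) ^ 2 * (3/10 - s) ^ 1) + (43217/528) * ((s - 1/10) ^ 3 * (3/10 - s) ^ 0) := by ring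
  linarith [e]

theorem ineq_six_a_4 {s : ℝ} (h0 : 1/10 ≤ s) (h1 : s ≤ 3/10) :
    (16/33) + (32/11) * s + 8 * s ^ 2 + (40/3) * s ^ 3 + 15 * s ^ 4 + 5 * (3/50) ≤
      (67/200) * (23/2 - 9 * (1 - s)) + 4 * (1 - (1 - s) ^ 2) * (147/200) := by
  have hu : 0 ≤ s - 1/10 := by linarith
  have hv : 0 ≤ 3/10 - s := by linarith
  have t0 := mul_nonneg (pow_nonneg hu 0) (pow_nonneg hv 4)
  have t1 := mul_nonneg (pow_nonneg hu 1) (pow_nonneg hv 3)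
  have t2 := mul_nonneg (pow_nonneg hu 2) (pow_nonneg hv 2)
  have t3 := mul_nonneg (pow_nonneg hu 3) (pow_nonneg hv 1)
  have t4 := mul_nonneg (pow_nonneg hu 4) (pow_nonneg hv 0)
  have e : (67/200) * (23/2 - 9 * (1 - s)) + 4 * (1 - (1 - s) ^ 2) * (147/200) -
      ((16/33) + (32/11) * s + 8 * s ^ 2 + (40/3) * s ^ 3 + 15 * s ^ 4 + 5 * (3/50)) =
      (57971/176) * ((s - 1/10) ^ 0 * (3/10 - s) ^ 4) + (152659/88) * ((s - 1/10) ^ 1 * (3/10 - s) ^ 3) + (2832) * ((s - 1/10) ^ 2 * (3/10 - s) ^ 2) + (443671/264) * ((s - 1/10) ^ 3 * (3/10 - s) ^ 1) + (126167/528) * ((s - 1/10) ^ 4 * (3/10 - s) ^ 0) := by ring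
  linarith [e]

theorem ineq_six_a_5 {s : ℝ} (h0 : 1/10 ≤ s) (h1 : s ≤ 3/10) :
    (64/429) + (32/33) * s + (32/11) * s ^ 2 + (16/3) * s ^ 3 + (20/3) * s ^ 4 + 6 * s ^ 5 + 6 * (0) ≤
      (3/50) * (23/2 - 11 * (1 - s)) + 5 * (1 - (1 - s) ^ 2) * (67/200) := by
  have hu : 0 ≤ s - 1/10 := by linarith
  have hv : 0 ≤ 3/10 - s := by linarith
  have t0 := mul_nonneg (pow_nonneg hu 0) (pow_nonneg hv 5)
  have t1 := mul_nonneg (pow_nonneg hu 1) (pow_nonneg hv 4)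
  have t2 := mul_nonneg (pow_nonneg hu 2) (pow_nonneg hv 3)
  have t3 := mul_nonneg (pow_nonneg hu 3) (pow_nonneg hv 2)
  have t4 := mul_nonneg (pow_nonneg hu 4) (pow_nonneg hv 1)
  have t5 := mul_nonneg (pow_nonneg hu 5) (pow_nonneg hv 0)
  have e : (3/50) * (23/2 - 11 * (1 - s)) + 5 * (1 - (1 - s) ^ 2) * (67/200) -
      ((64/429) + (32/33) * s + (32/11) * s ^ 2 + (16/3) * s ^ 3 + (20/3) * s ^ 4 + 6 * s ^ 5 + 6 * (0)) =
      (1901117/4576) * ((s - 1/10) ^ 0 * (3/10 - s) ^ 5) + (15036305/4576) * ((s - 1/10) ^ 1 * (3/10 - s) ^ 4) + (18666815/2288) * ((s - 1/10) ^ 2 * (3/10 - s) ^ 3) + (19905195/2288) * ((s - 1/10) ^ 3 * (3/10 - s) ^ 2) + (54115055/13728) * ((s - 1/10) ^ 4 * (3/10 - s) ^ 1) + (7196843/13728) * ((s - 1/10) ^ 5 * (3/10 - s) ^ 0) := by ring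
  linarith [e]

theorem ineq_six_a_6 {s : ℝ} (h0 : 1/10 ≤ s) (h1 : s ≤ 3/10) :
    (64/3003) + (64/429) * s + (16/33) * s ^ 2 + (32/33) * s ^ 3 + (4/3) * s ^ 4 + (4/3) * s ^ 5 + 1 * s ^ 6 + 7 * (0) ≤
      (0) * (23/2 - 13 * (1 - s)) + 6 * (1 - (1 - s) ^ 2) * (3/50) := by
  have hu : 0 ≤ s - 1/10 := by linarith
  have hv : 0 ≤ 3/10 - s := by linarith
  have t0 := mul_nonneg (pow_nonneg hu 0) (pow_nonneg hv 6)
  have t1 := mul_nonneg (pow_nonneg hu 1) (pow_nonneg hv 5)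
  have t2 := mul_nonneg (pow_nonneg hu 2) (pow_nonneg hv 4)
  have t3 := mul_nonneg (pow_nonneg hu 3) (pow_nonneg hv 3)
  have t4 := mul_nonneg (pow_nonneg hu 4) (pow_nonneg hv 2)
  have t5 := mul_nonneg (pow_nonneg hu 5) (pow_nonneg hv 1)
  have t6 := mul_nonneg (pow_nonneg hu 6) (pow_nonneg hv 0)
  have e : (0) * (23/2 - 13 * (1 - s)) + 6 * (1 - (1 - s) ^ 2) * (3/50) -
      ((64/3003) + (64/429) * s + (16/33) * s ^ 2 + (32/33) * s ^ 3 + (4/3) * s ^ 4 + (4/3) * s ^ 5 + 1 * s ^ 6 + 7 * (0)) =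
      (26229919/64064) * ((s - 1/10) ^ 0 * (3/10 - s) ^ 6) + (10490541/2912) * ((s - 1/10) ^ 1 * (3/10 - s) ^ 5) + (54710605/4928) * ((s - 1/10) ^ 2 * (3/10 - s) ^ 4) + (23826515/1456) * ((s - 1/10) ^ 3 * (3/10 - s) ^ 3) + (788699585/64064) * ((s - 1/10) ^ 4 * (3/10 - s) ^ 2) + (38188823/8736) * ((s - 1/10) ^ 5 * (3/10 - s) ^ 1) + (98935493/192192) * ((s - 1/10) ^ 6 * (3/10 - s) ^ 0) := by ring
  linarith [e]

/-- The multipliers, `k = 6`, `s ∈ [0, 1/10]`. -/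
noncomputable def lam_six_b (j : ℕ) : ℝ :=
  if j = 2 then 233/200 else if j = 3 then 42/25 else if j = 4 then 73/50 else if j = 5 then 111/200 else 0

theorem lam_six_b_nonneg (j : ℕ) : 0 ≤ lam_six_b j := by
  unfold lam_six_b
  split_ifs <;> norm_num

theorem ineq_six_b_2 {s : ℝ} (h0 : 0 ≤ s) (h1 : s ≤ 1/10) :
    (4/3) + (20/3) * s + 15 * s ^ 2 + 3 * (42/25) ≤
      (233/200) * (23/2 - 5 * (1 - s)) + 2 * (1 - (1 - s) ^ 2) * (0) := by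
  have hu : 0 ≤ s - 0 := by linarith
  have hv : 0 ≤ 1/10 - s := by linarith
  have t0 := mul_nonneg (pow_nonneg hu 0) (pow_nonneg hv 2)
  have t1 := mul_nonneg (pow_nonneg hu 1) (pow_nonneg hv 1)
  have t2 := mul_nonneg (pow_nonneg hu 2) (pow_nonneg hv 0)
  have e : (233/200) * (23/2 - 5 * (1 - s)) + 2 * (1 - (1 - s) ^ 2) * (0) -
      ((4/3) + (20/3) * s + 15 * s ^ 2 + 3 * (42/25)) =
      (1439/12) * ((s - 0) ^ 0 * (1/10 - s) ^ 2) + (2777/12) * ((s - 0) ^ 1 * (1/10 - s) ^ 1) + (193/2) * ((s - 0) ^ 2 * (1/10 - s) ^ 0) := by ring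
  linarith [e]

theorem ineq_six_b_3 {s : ℝ} (h0 : 0 ≤ s) (h1 : s ≤ 1/10) :
    (32/33) + (16/3) * s + (40/3) * s ^ 2 + 20 * s ^ 3 + 4 * (73/50) ≤
      (42/25) * (23/2 - 7 * (1 - s)) + 3 * (1 - (1 - s) ^ 2) * (233/200) := by
  have hu : 0 ≤ s - 0 := by linarith
  have hv : 0 ≤ 1/10 - s := by linarith
  have t0 := mul_nonneg (pow_nonneg hu 0) (pow_nonneg hv 3)
  have t1 := mul_nonneg (pow_nonneg hu 1) (pow_nonneg hv 2)
  have t2 := mul_nonneg (pow_nonneg hu 2) (pow_nonneg hv 1)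
  have t3 := mul_nonneg (pow_nonneg hu 3) (pow_nonneg hv 0)
  have e : (42/25) * (23/2 - 7 * (1 - s)) + 3 * (1 - (1 - s) ^ 2) * (233/200) -
      ((32/33) + (16/3) * s + (40/3) * s ^ 2 + 20 * s ^ 3 + 4 * (73/50)) =
      (24760/33) * ((s - 0) ^ 0 * (1/10 - s) ^ 3) + (118555/33) * ((s - 0) ^ 1 * (1/10 - s) ^ 2) + (1048511/220) * ((s - 0) ^ 2 * (1/10 - s) ^ 1) + (418811/220) * ((s - 0) ^ 3 * (1/10 - s) ^ 0) := by ring
  linarith [e]

theorem ineq_six_b_4 {s : ℝ} (h0 : 0 ≤ s) (h1 : s ≤ 1/10) :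
    (16/33) + (32/11) * s + 8 * s ^ 2 + (40/3) * s ^ 3 + 15 * s ^ 4 + 5 * (111/200) ≤
      (73/50) * (23/2 - 9 * (1 - s)) + 4 * (1 - (1 - s) ^ 2) * (42/25) := by
  have hu : 0 ≤ s - 0 := by linarith
  have hv : 0 ≤ 1/10 - s := by linarith
  have t0 := mul_nonneg (pow_nonneg hu 0) (pow_nonneg hv 4)
  have t1 := mul_nonneg (pow_nonneg hu 1) (pow_nonneg hv 3)
  have t2 := mul_nonneg (pow_nonneg hu 2) (pow_nonneg hv 2)
  have t3 := mul_nonneg (pow_nonneg hu 3) (pow_nonneg hv 1)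
  have t4 := mul_nonneg (pow_nonneg hu 4) (pow_nonneg hv 0)
  have e : (73/50) * (23/2 - 9 * (1 - s)) + 4 * (1 - (1 - s) ^ 2) * (42/25) -
      ((16/33) + (32/11) * s + 8 * s ^ 2 + (40/3) * s ^ 3 + 15 * s ^ 4 + 5 * (111/200)) =
      (128750/33) * ((s - 0) ^ 0 * (1/10 - s) ^ 4) + (1296140/33) * ((s - 0) ^ 1 * (1/10 - s) ^ 3) + (1022448/11) * ((s - 0) ^ 2 * (1/10 - s) ^ 2) + (918956/11) * ((s - 0) ^ 3 * (1/10 - s) ^ 1) + (285473/11) * ((s - 0) ^ 4 * (1/10 - s) ^ 0) := by ring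
  linarith [e]

theorem ineq_six_b_5 {s : ℝ} (h0 : 0 ≤ s) (h1 : s ≤ 1/10) :
    (64/429) + (32/33) * s + (32/11) * s ^ 2 + (16/3) * s ^ 3 + (20/3) * s ^ 4 + 6 * s ^ 5 + 6 * (0) ≤
      (111/200) * (23/2 - 11 * (1 - s)) + 5 * (1 - (1 - s) ^ 2) * (73/50) := by
  have hu : 0 ≤ s - 0 := by linarith
  have hv : 0 ≤ 1/10 - s := by linarith
  have t0 := mul_nonneg (pow_nonneg hu 0) (pow_nonneg hv 5)
  have t1 := mul_nonneg (pow_nonneg hu 1) (pow_nonneg hv 4)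
  have t2 := mul_nonneg (pow_nonneg hu 2) (pow_nonneg hv 3)
  have t3 := mul_nonneg (pow_nonneg hu 3) (pow_nonneg hv 2)
  have t4 := mul_nonneg (pow_nonneg hu 4) (pow_nonneg hv 1)
  have t5 := mul_nonneg (pow_nonneg hu 5) (pow_nonneg hv 0)
  have e : (111/200) * (23/2 - 11 * (1 - s)) + 5 * (1 - (1 - s) ^ 2) * (73/50) -
      ((64/429) + (32/33) * s + (32/11) * s ^ 2 + (16/3) * s ^ 3 + (20/3) * s ^ 4 + 6 * s ^ 5 + 6 * (0)) =
      (5504750/429) * ((s - 0) ^ 0 * (1/10 - s) ^ 5) + (112188200/429) * ((s - 0) ^ 1 * (1/10 - s) ^ 4) + (129775200/143) * ((s - 0) ^ 2 * (1/10 - s) ^ 3) + (183222100/143) * ((s - 0) ^ 3 * (1/10 - s) ^ 2) + (117518750/143) * ((s - 0) ^ 4 * (1/10 - s) ^ 1) + (28509842/143) * ((s - 0) ^ 5 * (1/10 - s) ^ 0) := by ring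
  linarith [e]

theorem ineq_six_b_6 {s : ℝ} (h0 : 0 ≤ s) (h1 : s ≤ 1/10) :
    (272/429) * s + (16/33) * s ^ 2 + (32/33) * s ^ 3 + (4/3) * s ^ 4 + (4/3) * s ^ 5 + 1 * s ^ 6 + 7 * (0) ≤
      (0) * (23/2 - 13 * (1 - s)) + 6 * (1 - (1 - s) ^ 2) * (111/200) := by
  have hu : 0 ≤ s - 0 := by linarith
  have hv : 0 ≤ 1/10 - s := by linarith
  have t0 := mul_nonneg (pow_nonneg hu 0) (pow_nonneg hv 6)
  have t1 := mul_nonneg (pow_nonneg hu 1) (pow_nonneg hv 5)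
  have t2 := mul_nonneg (pow_nonneg hu 2) (pow_nonneg hv 4)
  have t3 := mul_nonneg (pow_nonneg hu 3) (pow_nonneg hv 3)
  have t4 := mul_nonneg (pow_nonneg hu 4) (pow_nonneg hv 2)
  have t5 := mul_nonneg (pow_nonneg hu 5) (pow_nonneg hv 1)
  have t6 := mul_nonneg (pow_nonneg hu 6) (pow_nonneg hv 0)
  have e : (0) * (23/2 - 13 * (1 - s)) + 6 * (1 - (1 - s) ^ 2) * (111/200) -
      ((272/429) * s + (16/33) * s ^ 2 + (32/33) * s ^ 3 + (4/3) * s ^ 4 + (4/3) * s ^ 5 + 1 * s ^ 6 + 7 * (0)) =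
      (258514000/429) * ((s - 0) ^ 1 * (1/10 - s) ^ 5) + (1276204300/429) * ((s - 0) ^ 2 * (1/10 - s) ^ 4) + (2519261200/429) * ((s - 0) ^ 3 * (1/10 - s) ^ 3) + (2485640600/429) * ((s - 0) ^ 4 * (1/10 - s) ^ 2) + (1225739080/429) * ((s - 0) ^ 5 * (1/10 - s) ^ 1) + (80556317/143) * ((s - 0) ^ 6 * (1/10 - s) ^ 0) := by ring
  linarith [e]

/-- The multipliers, `k = 7`, `s ∈ [1/10, 3/10]`. -/
noncomputable def lam_seven_a (j : ℕ) : ℝ :=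
  if j = 2 then 9/8 else if j = 3 then 113/100 else if j = 4 then 149/200 else if j = 5 then 57/200 else if j = 6 then 1/20 else 0

theorem lam_seven_a_nonneg (j : ℕ) : 0 ≤ lam_seven_a j := by
  unfold lam_seven_a
  split_ifs <;> norm_num

theorem ineq_seven_a_2 {s : ℝ} (h0 : 1/10 ≤ s) (h1 : s ≤ 3/10) :
    (84/55) + (42/5) * s + 21 * s ^ 2 + 3 * (113/100) ≤
      (9/8) * (27/2 - 5 * (1 - s)) + 2 * (1 - (1 - s) ^ 2) * (0) := by
  have hu : 0 ≤ s - 1/10 := by linarith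
  have hv : 0 ≤ 3/10 - s := by linarith
  have t0 := mul_nonneg (pow_nonneg hu 0) (pow_nonneg hv 2)
  have t1 := mul_nonneg (pow_nonneg hu 1) (pow_nonneg hv 1)
  have t2 := mul_nonneg (pow_nonneg hu 2) (pow_nonneg hv 0)
  have e : (9/8) * (27/2 - 5 * (1 - s)) + 2 * (1 - (1 - s) ^ 2) * (0) -
      ((84/55) + (42/5) * s + 21 * s ^ 2 + 3 * (113/100)) =
      (9147/88) * ((s - 1/10) ^ 0 * (3/10 - s) ^ 2) + (15225/88) * ((s - 1/10) ^ 1 * (3/10 - s) ^ 1) + (2115/44) * ((s - 1/10) ^ 2 * (3/10 - s) ^ 0) := by ring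
  linarith [e]

theorem ineq_seven_a_3 {s : ℝ} (h0 : 1/10 ≤ s) (h1 : s ≤ 3/10) :
    (14/11) + (84/11) * s + 21 * s ^ 2 + 35 * s ^ 3 + 4 * (149/200) ≤
      (113/100) * (27/2 - 7 * (1 - s)) + 3 * (1 - (1 - s) ^ 2) * (9/8) := by
  have hu : 0 ≤ s - 1/10 := by linarith
  have hv : 0 ≤ 3/10 - s := by linarith
  have t0 := mul_nonneg (pow_nonneg hu 0) (pow_nonneg hv 3)
  have t1 := mul_nonneg (pow_nonneg hu 1) (pow_nonneg hv 2)
  have t2 := mul_nonneg (pow_nonneg hu 2) (pow_nonneg hv 1)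
  have t3 := mul_nonneg (pow_nonneg hu 3) (pow_nonneg hv 0)
  have e : (113/100) * (27/2 - 7 * (1 - s)) + 3 * (1 - (1 - s) ^ 2) * (9/8) -
      ((14/11) + (84/11) * s + 21 * s ^ 2 + 35 * s ^ 3 + 4 * (149/200)) =
      (154699/352) * ((s - 1/10) ^ 0 * (3/10 - s) ^ 3) + (473765/352) * ((s - 1/10) ^ 1 * (3/10 - s) ^ 2) + (422053/352) * ((s - 1/10) ^ 2 * (3/10 - s) ^ 1) + (90667/352) * ((s - 1/10) ^ 3 * (3/10 - s) ^ 0) := by ring
  linarith [e]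

theorem ineq_seven_a_4 {s : ℝ} (h0 : 1/10 ≤ s) (h1 : s ≤ 3/10) :
    (112/143) + (56/11) * s + (168/11) * s ^ 2 + 28 * s ^ 3 + 35 * s ^ 4 + 5 * (57/200) ≤
      (149/200) * (27/2 - 9 * (1 - s)) + 4 * (1 - (1 - s) ^ 2) * (113/100) := by
  have hu : 0 ≤ s - 1/10 := by linarith
  have hv : 0 ≤ 3/10 - s := by linarith
  have t0 := mul_nonneg (pow_nonneg hu 0) (pow_nonneg hv 4)
  have t1 := mul_nonneg (pow_nonneg hu 1) (pow_nonneg hv 3)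
  have t2 := mul_nonneg (pow_nonneg hu 2) (pow_nonneg hv 2)
  have t3 := mul_nonneg (pow_nonneg hu 3) (pow_nonneg hv 1)
  have t4 := mul_nonneg (pow_nonneg hu 4) (pow_nonneg hv 0)
  have e : (149/200) * (27/2 - 9 * (1 - s)) + 4 * (1 - (1 - s) ^ 2) * (113/100) -
      ((112/143) + (56/11) * s + (168/11) * s ^ 2 + 28 * s ^ 3 + 35 * s ^ 4 + 5 * (57/200)) =
      (2831779/2288) * ((s - 1/10) ^ 0 * (3/10 - s) ^ 4) + (589171/104) * ((s - 1/10) ^ 1 * (3/10 - s) ^ 3) + (5040467/572) * ((s - 1/10) ^ 2 * (3/10 - s) ^ 2) + (558413/104) * ((s - 1/10) ^ 3 * (3/10 - s) ^ 1) + (2173121/2288) * ((s - 1/10) ^ 4 * (3/10 - s) ^ 0) := by ring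
  linarith [e]

theorem ineq_seven_a_5 {s : ℝ} (h0 : 1/10 ≤ s) (h1 : s ≤ 3/10) :
    (48/143) + (336/143) * s + (84/11) * s ^ 2 + (168/11) * s ^ 3 + 21 * s ^ 4 + 21 * s ^ 5 + 6 * (1/20) ≤
      (57/200) * (27/2 - 11 * (1 - s)) + 5 * (1 - (1 - s) ^ 2) * (149/200) := by
  have hu : 0 ≤ s - 1/10 := by linarith
  have hv : 0 ≤ 3/10 - s := by linarith
  have t0 := mul_nonneg (pow_nonneg hu 0) (pow_nonneg hv 5)
  have t1 := mul_nonneg (pow_nonneg hu 1) (pow_nonneg hv 4)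
  have t2 := mul_nonneg (pow_nonneg hu 2) (pow_nonneg hv 3)
  have t3 := mul_nonneg (pow_nonneg hu 3) (pow_nonneg hv 2)
  have t4 := mul_nonneg (pow_nonneg hu 4) (pow_nonneg hv 1)
  have t5 := mul_nonneg (pow_nonneg hu 5) (pow_nonneg hv 0)
  have e : (57/200) * (27/2 - 11 * (1 - s)) + 5 * (1 - (1 - s) ^ 2) * (149/200) -
      ((48/143) + (336/143) * s + (84/11) * s ^ 2 + (168/11) * s ^ 3 + 21 * s ^ 4 + 21 * s ^ 5 + 6 * (1/20)) =
      (1374899/572) * ((s - 1/10) ^ 0 * (3/10 - s) ^ 5) + (35234845/2288) * ((s - 1/10) ^ 1 * (3/10 - s) ^ 4) + (40481625/1144) * ((s - 1/10) ^ 2 * (3/10 - s) ^ 3) + (10625305/286) * ((s - 1/10) ^ 3 * (3/10 - s) ^ 2) + (20098085/1144) * ((s - 1/10) ^ 4 * (3/10 - s) ^ 1) + (6373683/2288) * ((s - 1/10) ^ 5 * (3/10 - s) ^ 0) := by ring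
  linarith [e]

theorem ineq_seven_a_6 {s : ℝ} (h0 : 1/10 ≤ s) (h1 : s ≤ 3/10) :
    (64/715) + (96/143) * s + (336/143) * s ^ 2 + (56/11) * s ^ 3 + (84/11) * s ^ 4 + (42/5) * s ^ 5 + 7 * s ^ 6 + 7 * (0) ≤
      (1/20) * (27/2 - 13 * (1 - s)) + 6 * (1 - (1 - s) ^ 2) * (57/200) := by
  have hu : 0 ≤ s - 1/10 := by linarith
  have hv : 0 ≤ 3/10 - s := by linarith
  have t0 := mul_nonneg (pow_nonneg hu 0) (pow_nonneg hv 6)
  have t1 := mul_nonneg (pow_nonneg hu 1) (pow_nonneg hv 5)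
  have t2 := mul_nonneg (pow_nonneg hu 2) (pow_nonneg hv 4)
  have t3 := mul_nonneg (pow_nonneg hu 3) (pow_nonneg hv 3)
  have t4 := mul_nonneg (pow_nonneg hu 4) (pow_nonneg hv 2)
  have t5 := mul_nonneg (pow_nonneg hu 5) (pow_nonneg hv 1)
  have t6 := mul_nonneg (pow_nonneg hu 6) (pow_nonneg hv 0)
  have e : (1/20) * (27/2 - 13 * (1 - s)) + 6 * (1 - (1 - s) ^ 2) * (57/200) -
      ((64/715) + (96/143) * s + (336/143) * s ^ 2 + (56/11) * s ^ 3 + (84/11) * s ^ 4 + (42/5) * s ^ 5 + 7 * s ^ 6 + 7 * (0)) =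
      (32720487/9152) * ((s - 1/10) ^ 0 * (3/10 - s) ^ 6) + (10189615/352) * ((s - 1/10) ^ 1 * (3/10 - s) ^ 5) + (798724105/9152) * ((s - 1/10) ^ 2 * (3/10 - s) ^ 4) + (297391685/2288) * ((s - 1/10) ^ 3 * (3/10 - s) ^ 3) + (931899785/9152) * ((s - 1/10) ^ 4 * (3/10 - s) ^ 2) + (180546083/4576) * ((s - 1/10) ^ 5 * (3/10 - s) ^ 1) + (52180455/9152) * ((s - 1/10) ^ 6 * (3/10 - s) ^ 0) := by ring
  linarith [e]

theorem ineq_seven_a_7 {s : ℝ} (h0 : 1/10 ≤ s) (h1 : s ≤ 3/10) :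
    (8/715) + (64/715) * s + (48/143) * s ^ 2 + (112/143) * s ^ 3 + (14/11) * s ^ 4 + (84/55) * s ^ 5 + (7/5) * s ^ 6 + 1 * s ^ 7 + 8 * (0) ≤
      (0) * (27/2 - 15 * (1 - s)) + 7 * (1 - (1 - s) ^ 2) * (1/20) := by
  have hu : 0 ≤ s - 1/10 := by linarith
  have hv : 0 ≤ 3/10 - s := by linarith
  have t0 := mul_nonneg (pow_nonneg hu 0) (pow_nonneg hv 7)
  have t1 := mul_nonneg (pow_nonneg hu 1) (pow_nonneg hv 6)
  have t2 := mul_nonneg (pow_nonneg hu 2) (pow_nonneg hv 5)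
  have t3 := mul_nonneg (pow_nonneg hu 3) (pow_nonneg hv 4)
  have t4 := mul_nonneg (pow_nonneg hu 4) (pow_nonneg hv 3)
  have t5 := mul_nonneg (pow_nonneg hu 5) (pow_nonneg hv 2)
  have t6 := mul_nonneg (pow_nonneg hu 6) (pow_nonneg hv 1)
  have t7 := mul_nonneg (pow_nonneg hu 7) (pow_nonneg hv 0)
  have e : (0) * (27/2 - 15 * (1 - s)) + 7 * (1 - (1 - s) ^ 2) * (1/20) -
      ((8/715) + (64/715) * s + (48/143) * s ^ 2 + (112/143) * s ^ 3 + (14/11) * s ^ 4 + (84/55) * s ^ 5 + (7/5) * s ^ 6 + 1 * s ^ 7 + 8 * (0)) =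
      (60169015/18304) * ((s - 1/10) ^ 0 * (3/10 - s) ^ 7) + (548142679/18304) * ((s - 1/10) ^ 1 * (3/10 - s) ^ 6) + (1967273027/18304) * ((s - 1/10) ^ 2 * (3/10 - s) ^ 5) + (3703248915/18304) * ((s - 1/10) ^ 3 * (3/10 - s) ^ 4) + (3991983685/18304) * ((s - 1/10) ^ 4 * (3/10 - s) ^ 3) + (2469417605/18304) * ((s - 1/10) ^ 5 * (3/10 - s) ^ 2) + (806995457/18304) * ((s - 1/10) ^ 6 * (3/10 - s) ^ 1) + (105593681/18304) * ((s - 1/10) ^ 7 * (3/10 - s) ^ 0) := by ring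
  linarith [e]

/-- The multipliers, `k = 7`, `s ∈ [0, 1/10]`. -/
noncomputable def lam_seven_b (j : ℕ) : ℝ :=
  if j = 2 then 47/40 else if j = 3 then 379/200 else if j = 4 then 9/4 else if j = 5 then 321/200 else if j = 6 then 103/200 else 0

theorem lam_seven_b_nonneg (j : ℕ) : 0 ≤ lam_seven_b j := by
  unfold lam_seven_b
  split_ifs <;> norm_num

theorem ineq_seven_b_2 {s : ℝ} (h0 : 0 ≤ s) (h1 : s ≤ 1/10) :
    (84/55) + (42/5) * s + 21 * s ^ 2 + 3 * (379/200) ≤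
      (47/40) * (27/2 - 5 * (1 - s)) + 2 * (1 - (1 - s) ^ 2) * (0) := by
  have hu : 0 ≤ s - 0 := by linarith
  have hv : 0 ≤ 1/10 - s := by linarith
  have t0 := mul_nonneg (pow_nonneg hu 0) (pow_nonneg hv 2)
  have t1 := mul_nonneg (pow_nonneg hu 1) (pow_nonneg hv 1)
  have t2 := mul_nonneg (pow_nonneg hu 2) (pow_nonneg hv 0)
  have e : (47/40) * (27/2 - 5 * (1 - s)) + 2 * (1 - (1 - s) ^ 2) * (0) -
      ((84/55) + (42/5) * s + 21 * s ^ 2 + 3 * (379/200)) =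
      (12211/44) * ((s - 0) ^ 0 * (1/10 - s) ^ 2) + (23311/44) * ((s - 0) ^ 1 * (1/10 - s) ^ 1) + (2544/11) * ((s - 0) ^ 2 * (1/10 - s) ^ 0) := by ring
  linarith [e]

theorem ineq_seven_b_3 {s : ℝ} (h0 : 0 ≤ s) (h1 : s ≤ 1/10) :
    (14/11) + (84/11) * s + 21 * s ^ 2 + 35 * s ^ 3 + 4 * (9/4) ≤
      (379/200) * (27/2 - 7 * (1 - s)) + 3 * (1 - (1 - s) ^ 2) * (47/40) := by
  have hu : 0 ≤ s - 0 := by linarith
  have hv : 0 ≤ 1/10 - s := by linarith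
  have t0 := mul_nonneg (pow_nonneg hu 0) (pow_nonneg hv 3)
  have t1 := mul_nonneg (pow_nonneg hu 1) (pow_nonneg hv 2)
  have t2 := mul_nonneg (pow_nonneg hu 2) (pow_nonneg hv 1)
  have t3 := mul_nonneg (pow_nonneg hu 3) (pow_nonneg hv 0)
  have e : (379/200) * (27/2 - 7 * (1 - s)) + 3 * (1 - (1 - s) ^ 2) * (47/40) -
      ((14/11) + (84/11) * s + 21 * s ^ 2 + 35 * s ^ 3 + 4 * (9/4)) =
      (44985/22) * ((s - 0) ^ 0 * (1/10 - s) ^ 3) + (81424/11) * ((s - 0) ^ 1 * (1/10 - s) ^ 2) + (370691/44) * ((s - 0) ^ 2 * (1/10 - s) ^ 1) + (133425/44) * ((s - 0) ^ 3 * (1/10 - s) ^ 0) := by ring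
  linarith [e]

theorem ineq_seven_b_4 {s : ℝ} (h0 : 0 ≤ s) (h1 : s ≤ 1/10) :
    (112/143) + (56/11) * s + (168/11) * s ^ 2 + 28 * s ^ 3 + 35 * s ^ 4 + 5 * (321/200) ≤
      (9/4) * (27/2 - 9 * (1 - s)) + 4 * (1 - (1 - s) ^ 2) * (379/200) := by
  have hu : 0 ≤ s - 0 := by linarith
  have hv : 0 ≤ 1/10 - s := by linarith
  have t0 := mul_nonneg (pow_nonneg hu 0) (pow_nonneg hv 4)
  have t1 := mul_nonneg (pow_nonneg hu 1) (pow_nonneg hv 3)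
  have t2 := mul_nonneg (pow_nonneg hu 2) (pow_nonneg hv 2)
  have t3 := mul_nonneg (pow_nonneg hu 3) (pow_nonneg hv 1)
  have t4 := mul_nonneg (pow_nonneg hu 4) (pow_nonneg hv 0)
  have e : (9/4) * (27/2 - 9 * (1 - s)) + 4 * (1 - (1 - s) ^ 2) * (379/200) -
      ((112/143) + (56/11) * s + (168/11) * s ^ 2 + 28 * s ^ 3 + 35 * s ^ 4 + 5 * (321/200)) =
      (1883000/143) * ((s - 0) ^ 0 * (1/10 - s) ^ 4) + (11867630/143) * ((s - 0) ^ 1 * (1/10 - s) ^ 3) + (23978096/143) * ((s - 0) ^ 2 * (1/10 - s) ^ 2) + (19845262/143) * ((s - 0) ^ 3 * (1/10 - s) ^ 1) + (5846791/143) * ((s - 0) ^ 4 * (1/10 - s) ^ 0) := by ring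
  linarith [e]

theorem ineq_seven_b_5 {s : ℝ} (h0 : 0 ≤ s) (h1 : s ≤ 1/10) :
    (48/143) + (336/143) * s + (84/11) * s ^ 2 + (168/11) * s ^ 3 + 21 * s ^ 4 + 21 * s ^ 5 + 6 * (103/200) ≤
      (321/200) * (27/2 - 11 * (1 - s)) + 5 * (1 - (1 - s) ^ 2) * (9/4) := by
  have hu : 0 ≤ s - 0 := by linarith
  have hv : 0 ≤ 1/10 - s := by linarith
  have t0 := mul_nonneg (pow_nonneg hu 0) (pow_nonneg hv 5)
  have t1 := mul_nonneg (pow_nonneg hu 1) (pow_nonneg hv 4)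
  have t2 := mul_nonneg (pow_nonneg hu 2) (pow_nonneg hv 3)
  have t3 := mul_nonneg (pow_nonneg hu 3) (pow_nonneg hv 2)
  have t4 := mul_nonneg (pow_nonneg hu 4) (pow_nonneg hv 1)
  have t5 := mul_nonneg (pow_nonneg hu 5) (pow_nonneg hv 0)
  have e : (321/200) * (27/2 - 11 * (1 - s)) + 5 * (1 - (1 - s) ^ 2) * (9/4) -
      ((48/143) + (336/143) * s + (84/11) * s ^ 2 + (168/11) * s ^ 3 + 21 * s ^ 4 + 21 * s ^ 5 + 6 * (103/200)) =
      (8391750/143) * ((s - 0) ^ 0 * (1/10 - s) ^ 5) + (96020400/143) * ((s - 0) ^ 1 * (1/10 - s) ^ 4) + (297463350/143) * ((s - 0) ^ 2 * (1/10 - s) ^ 3) + (399966750/143) * ((s - 0) ^ 3 * (1/10 - s) ^ 2) + (19202790/11) * ((s - 0) ^ 4 * (1/10 - s) ^ 1) + (59501217/143) * ((s - 0) ^ 5 * (1/10 - s) ^ 0) := by ring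
  linarith [e]

theorem ineq_seven_b_6 {s : ℝ} (h0 : 0 ≤ s) (h1 : s ≤ 1/10) :
    (64/715) + (96/143) * s + (336/143) * s ^ 2 + (56/11) * s ^ 3 + (84/11) * s ^ 4 + (42/5) * s ^ 5 + 7 * s ^ 6 + 7 * (0) ≤
      (103/200) * (27/2 - 13 * (1 - s)) + 6 * (1 - (1 - s) ^ 2) * (321/200) := by
  have hu : 0 ≤ s - 0 := by linarith
  have hv : 0 ≤ 1/10 - s := by linarith
  have t0 := mul_nonneg (pow_nonneg hu 0) (pow_nonneg hv 6)
  have t1 := mul_nonneg (pow_nonneg hu 1) (pow_nonneg hv 5)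
  have t2 := mul_nonneg (pow_nonneg hu 2) (pow_nonneg hv 4)
  have t3 := mul_nonneg (pow_nonneg hu 3) (pow_nonneg hv 3)
  have t4 := mul_nonneg (pow_nonneg hu 4) (pow_nonneg hv 2)
  have t5 := mul_nonneg (pow_nonneg hu 5) (pow_nonneg hv 1)
  have t6 := mul_nonneg (pow_nonneg hu 6) (pow_nonneg hv 0)
  have e : (103/200) * (27/2 - 13 * (1 - s)) + 6 * (1 - (1 - s) ^ 2) * (321/200) -
      ((64/715) + (96/143) * s + (336/143) * s ^ 2 + (56/11) * s ^ 3 + (84/11) * s ^ 4 + (42/5) * s ^ 5 + 7 * s ^ 6 + 7 * (0)) =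
      (24022500/143) * ((s - 0) ^ 0 * (1/10 - s) ^ 6) + (505691500/143) * ((s - 0) ^ 1 * (1/10 - s) ^ 5) + (165460700/11) * ((s - 0) ^ 2 * (1/10 - s) ^ 4) + (366069400/13) * ((s - 0) ^ 3 * (1/10 - s) ^ 3) + (3870823900/143) * ((s - 0) ^ 4 * (1/10 - s) ^ 2) + (1880979488/143) * ((s - 0) ^ 5 * (1/10 - s) ^ 1) + (367597887/143) * ((s - 0) ^ 6 * (1/10 - s) ^ 0) := by ring
  linarith [e]

theorem ineq_seven_b_7 {s : ℝ} (h0 : 0 ≤ s) (h1 : s ≤ 1/10) :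
    (304/715) * s + (48/143) * s ^ 2 + (112/143) * s ^ 3 + (14/11) * s ^ 4 + (84/55) * s ^ 5 + (7/5) * s ^ 6 + 1 * s ^ 7 + 8 * (0) ≤
      (0) * (27/2 - 15 * (1 - s)) + 7 * (1 - (1 - s) ^ 2) * (103/200) := by
  have hu : 0 ≤ s - 0 := by linarith
  have hv : 0 ≤ 1/10 - s := by linarith
  have t0 := mul_nonneg (pow_nonneg hu 0) (pow_nonneg hv 7)
  have t1 := mul_nonneg (pow_nonneg hu 1) (pow_nonneg hv 6)
  have t2 := mul_nonneg (pow_nonneg hu 2) (pow_nonneg hv 5)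
  have t3 := mul_nonneg (pow_nonneg hu 3) (pow_nonneg hv 4)
  have t4 := mul_nonneg (pow_nonneg hu 4) (pow_nonneg hv 3)
  have t5 := mul_nonneg (pow_nonneg hu 5) (pow_nonneg hv 2)
  have t6 := mul_nonneg (pow_nonneg hu 6) (pow_nonneg hv 1)
  have t7 := mul_nonneg (pow_nonneg hu 7) (pow_nonneg hv 0)
  have e : (0) * (27/2 - 15 * (1 - s)) + 7 * (1 - (1 - s) ^ 2) * (103/200) -
      ((304/715) * s + (48/143) * s ^ 2 + (112/143) * s ^ 3 + (14/11) * s ^ 4 + (84/55) * s ^ 5 + (7/5) * s ^ 6 + 1 * s ^ 7 + 8 * (0)) =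
      (970230000/143) * ((s - 0) ^ 1 * (1/10 - s) ^ 6) + (524093500/13) * ((s - 0) ^ 2 * (1/10 - s) ^ 5) + (14270572500/143) * ((s - 0) ^ 3 * (1/10 - s) ^ 4) + (18836423000/143) * ((s - 0) ^ 4 * (1/10 - s) ^ 3) + (13982647160/143) * ((s - 0) ^ 5 * (1/10 - s) ^ 2) + (5534550818/143) * ((s - 0) ^ 6 * (1/10 - s) ^ 1) + (912552515/143) * ((s - 0) ^ 7 * (1/10 - s) ^ 0) := by ring
  linarith [e]

theorem pw_six_a {N : ℕ} (hN : 7 ≤ N) {L : Fin N → ℂ} (hL : ∀ a, ‖L a‖ ≤ 1)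
    {s : ℝ} (h0 : 1/10 ≤ s) (h1 : s ≤ 3/10)
    (hp : thr N 6 < ∑ a, (1 - (L a).re)) (hm : Pool.Agent.HHalfB.bal 6 < ∑ a, (1 + (L a).re)) :
    PW L 6 (1 - s) := by
  have hu : 0 ≤ s - 1/10 := by linarith
  have hv : 0 ≤ 3/10 - s := by linarith
  have t0 := mul_nonneg hu hu
  have t1' := mul_nonneg hu hv
  have t2 := mul_nonneg hv hv
  refine wrap (k := 6) (by norm_num) hN hL (by linarith) (by linarith) hp hm (E := 213/40)
    (b := fun j => bb 6 (1 - s) j)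
    (lam := lam_six_a) ?_ ?_ lam_six_a_nonneg (by norm_num [lam_six_a]) ?_ ?_ ?_ ?_
  · intro M hM j hj1 hj
    exact t1 hL hN ⟨by linarith, by linarith⟩ hM hj
  · intro j
    exact bb_nonneg 6 (by linarith) j
  · norm_num
    linarith
  · norm_num
    linarith
  · rw [bb_6_1]
    norm_num [lam_six_a]
    linarith
  · intro j h2 hj
    interval_cases j
    · have h := ineq_six_a_2 h0 h1
      norm_num [lam_six_a, bb_6_2] at h ⊢
      linarith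
    · have h := ineq_six_a_3 h0 h1
      norm_num [lam_six_a, bb_6_3] at h ⊢
      linarith
    · have h := ineq_six_a_4 h0 h1
      norm_num [lam_six_a, bb_6_4] at h ⊢
      linarith
    · have h := ineq_six_a_5 h0 h1
      norm_num [lam_six_a, bb_6_5] at h ⊢
      linarith
    · have h := ineq_six_a_6 h0 h1
      norm_num [lam_six_a, bb_6_6] at h ⊢
      linarith

theorem pw_six_b {N : ℕ} (hN : 7 ≤ N) {L : Fin N → ℂ} (hL : ∀ a, ‖L a‖ ≤ 1)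
    {s : ℝ} (h0 : 0 < s) (h1 : s ≤ 1/10)
    (hp : thr N 6 < ∑ a, (1 - (L a).re)) (hm : Pool.Agent.HHalfB.bal 6 < ∑ a, (1 + (L a).re))
    (hR : ∃ a, (1 + (1 - s)) / 2 < (L a).re) :
    PW L 6 (1 - s) := by
  obtain ⟨R, hR⟩ := hR
  have hu : 0 ≤ s - 0 := by linarith
  have hv : 0 ≤ 1/10 - s := by linarith
  have t0 := mul_nonneg hu hu
  have t1' := mul_nonneg hu hv
  have t2 := mul_nonneg hv hv
  refine wrap (k := 6) (by norm_num) hN hL (by linarith) (by linarith) hp hm (E := 517/100)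
    (b := fun j => if j = 6 then (bb 6 (1 - s) 6 - gg 6 6 + (1 - (1 - s)) * (((6:ℕ).choose (6 - 2) : ℝ) * gg 6 (6 - 2))) else bb 6 (1 - s) j)
    (lam := lam_six_b) ?_ ?_ lam_six_b_nonneg (by norm_num [lam_six_b]) ?_ ?_ ?_ ?_
  · intro M hM j hj1 hj
    split_ifs with hjk
    · subst hjk
      exact corner hL hN (by norm_num) ⟨by linarith, by linarith⟩ hM hR.le
    · exact t1 hL hN ⟨by linarith, by linarith⟩ hM hj
  · intro j
    split_ifs with hjk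
    · rw [bb_6_6, gg_6_6]
      norm_num [Nat.choose, gg_6_4]
      have hs : 0 ≤ s := by linarith
      linarith [hs, pow_nonneg hs 2, pow_nonneg hs 3, pow_nonneg hs 4, pow_nonneg hs 5, pow_nonneg hs 6]
    · exact bb_nonneg 6 (by linarith) j
  · norm_num
    linarith
  · norm_num
    linarith
  · rw [bb_6_1]
    norm_num [lam_six_b]
    linarith
  · intro j h2 hj
    interval_cases j
    · have h := ineq_six_b_2 h0.le h1
      norm_num [lam_six_b, bb_6_2] at h ⊢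
      linarith
    · have h := ineq_six_b_3 h0.le h1
      norm_num [lam_six_b, bb_6_3] at h ⊢
      linarith
    · have h := ineq_six_b_4 h0.le h1
      norm_num [lam_six_b, bb_6_4] at h ⊢
      linarith
    · have h := ineq_six_b_5 h0.le h1
      norm_num [lam_six_b, bb_6_5] at h ⊢
      linarith
    · have h := ineq_six_b_6 h0.le h1
      norm_num [lam_six_b, bb_6_6, gg_6_6, gg_6_4, Nat.choose] at h ⊢
      linarith

theorem pw_seven_a {N : ℕ} (hN : 8 ≤ N) {L : Fin N → ℂ} (hL : ∀ a, ‖L a‖ ≤ 1)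
    {s : ℝ} (h0 : 1/10 ≤ s) (h1 : s ≤ 3/10)
    (hp : thr N 7 < ∑ a, (1 - (L a).re)) (hm : Pool.Agent.HHalfB.bal 7 < ∑ a, (1 + (L a).re)) :
    PW L 7 (1 - s) := by
  have hu : 0 ≤ s - 1/10 := by linarith
  have hv : 0 ≤ 3/10 - s := by linarith
  have t0 := mul_nonneg hu hu
  have t1' := mul_nonneg hu hv
  have t2 := mul_nonneg hv hv
  refine wrap (k := 7) (by norm_num) hN hL (by linarith) (by linarith) hp hm (E := 1279/200)
    (b := fun j => bb 7 (1 - s) j)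
    (lam := lam_seven_a) ?_ ?_ lam_seven_a_nonneg (by norm_num [lam_seven_a]) ?_ ?_ ?_ ?_
  · intro M hM j hj1 hj
    exact t1 hL hN ⟨by linarith, by linarith⟩ hM hj
  · intro j
    exact bb_nonneg 7 (by linarith) j
  · norm_num
    linarith
  · norm_num
    linarith
  · rw [bb_7_1]
    norm_num [lam_seven_a]
    linarith
  · intro j h2 hj
    interval_cases j
    · have h := ineq_seven_a_2 h0 h1
      norm_num [lam_seven_a, bb_7_2] at h ⊢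
      linarith
    · have h := ineq_seven_a_3 h0 h1
      norm_num [lam_seven_a, bb_7_3] at h ⊢
      linarith
    · have h := ineq_seven_a_4 h0 h1
      norm_num [lam_seven_a, bb_7_4] at h ⊢
      linarith
    · have h := ineq_seven_a_5 h0 h1
      norm_num [lam_seven_a, bb_7_5] at h ⊢
      linarith
    · have h := ineq_seven_a_6 h0 h1
      norm_num [lam_seven_a, bb_7_6] at h ⊢
      linarith
    · have h := ineq_seven_a_7 h0 h1
      norm_num [lam_seven_a, bb_7_7] at h ⊢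
      linarith

theorem pw_seven_b {N : ℕ} (hN : 8 ≤ N) {L : Fin N → ℂ} (hL : ∀ a, ‖L a‖ ≤ 1)
    {s : ℝ} (h0 : 0 < s) (h1 : s ≤ 1/10)
    (hp : thr N 7 < ∑ a, (1 - (L a).re)) (hm : Pool.Agent.HHalfB.bal 7 < ∑ a, (1 + (L a).re))
    (hR : ∃ a, (1 + (1 - s)) / 2 < (L a).re) :
    PW L 7 (1 - s) := by
  obtain ⟨R, hR⟩ := hR
  have hu : 0 ≤ s - 0 := by linarith
  have hv : 0 ≤ 1/10 - s := by linarith
  have t0 := mul_nonneg hu hu
  have t1' := mul_nonneg hu hv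
  have t2 := mul_nonneg hv hv
  refine wrap (k := 7) (by norm_num) hN hL (by linarith) (by linarith) hp hm (E := 1249/200)
    (b := fun j => if j = 7 then (bb 7 (1 - s) 7 - gg 7 7 + (1 - (1 - s)) * (((7:ℕ).choose (7 - 2) : ℝ) * gg 7 (7 - 2))) else bb 7 (1 - s) j)
    (lam := lam_seven_b) ?_ ?_ lam_seven_b_nonneg (by norm_num [lam_seven_b]) ?_ ?_ ?_ ?_
  · intro M hM j hj1 hj
    split_ifs with hjk
    · subst hjk
      exact corner hL hN (by norm_num) ⟨by linarith, by linarith⟩ hM hR.le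
    · exact t1 hL hN ⟨by linarith, by linarith⟩ hM hj
  · intro j
    split_ifs with hjk
    · rw [bb_7_7, gg_7_7]
      norm_num [Nat.choose, gg_7_5]
      have hs : 0 ≤ s := by linarith
      linarith [hs, pow_nonneg hs 2, pow_nonneg hs 3, pow_nonneg hs 4, pow_nonneg hs 5, pow_nonneg hs 6, pow_nonneg hs 7]
    · exact bb_nonneg 7 (by linarith) j
  · norm_num
    linarith
  · norm_num
    linarith
  · rw [bb_7_1]
    norm_num [lam_seven_b]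
    linarith
  · intro j h2 hj
    interval_cases j
    · have h := ineq_seven_b_2 h0.le h1
      norm_num [lam_seven_b, bb_7_2] at h ⊢
      linarith
    · have h := ineq_seven_b_3 h0.le h1
      norm_num [lam_seven_b, bb_7_3] at h ⊢
      linarith
    · have h := ineq_seven_b_4 h0.le h1
      norm_num [lam_seven_b, bb_7_4] at h ⊢
      linarith
    · have h := ineq_seven_b_5 h0.le h1
      norm_num [lam_seven_b, bb_7_5] at h ⊢
      linarith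
    · have h := ineq_seven_b_6 h0.le h1
      norm_num [lam_seven_b, bb_7_6] at h ⊢
      linarith
    · have h := ineq_seven_b_7 h0.le h1
      norm_num [lam_seven_b, bb_7_7, gg_7_7, gg_7_5, Nat.choose] at h ⊢
      linarith

/-- ORDER `6` ON `[7/10, 1)`. -/
theorem pw_six_hi {N : ℕ} (hN : 7 ≤ N) {L : Fin N → ℂ} (hL : ∀ a, ‖L a‖ ≤ 1) {x : ℝ}
    (hx7 : 7 / 10 ≤ x) (hx1 : x < 1) (hp : thr N 6 < ∑ a, (1 - (L a).re))
    (hm : Pool.Agent.HHalfB.bal 6 < ∑ a, (1 + (L a).re)) (hR : ∃ a, (1 + x) / 2 < (L a).re) :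
    PW L 6 x := by
  obtain ⟨s, rfl⟩ : ∃ s, x = 1 - s := ⟨1 - x, by ring⟩
  rcases le_total s (1 / 10) with h | h
  · exact pw_six_b hN hL (by linarith) h hp hm hR
  · exact pw_six_a hN hL h (by linarith) hp hm

/-- ORDER `7` ON `[7/10, 1)`. -/
theorem pw_seven_hi {N : ℕ} (hN : 8 ≤ N) {L : Fin N → ℂ} (hL : ∀ a, ‖L a‖ ≤ 1) {x : ℝ}
    (hx7 : 7 / 10 ≤ x) (hx1 : x < 1) (hp : thr N 7 < ∑ a, (1 - (L a).re))
    (hm : Pool.Agent.HHalfB.bal 7 < ∑ a, (1 + (L a).re)) (hR : ∃ a, (1 + x) / 2 < (L a).re) :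
    PW L 7 x := by
  obtain ⟨s, rfl⟩ : ∃ s, x = 1 - s := ⟨1 - x, by ring⟩
  rcases le_total s (1 / 10) with h | h
  · exact pw_seven_b hN hL (by linarith) h hp hm hR
  · exact pw_seven_a hN hL h (by linarith) hp hm

end Pool.Agent.H18P1
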