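import Pool.Agent.HStar.Chain
import Pool.Agent.HFin.Ends

/-!
# The Taylor bounds at the end point `1` (T1), with explicit end values, and the corner bound

`gg k l = 2^l / C(k+2+l, l)` bounds the end values for all `N ≥ k + 1`.
-/

set_option autoImplicit false

namespace Pool.Agent.H18P1

open Set Polynomial Pool.Agent.HHalf Pool.Agent.HStar Pool.Agent.HFin

/-- `2^l / C(k+2+l, l)`. -/
noncomputable def gg (k l : ℕ) : ℝ := 2 ^ l / ((k + 2 + l).choose l : ℝ)

theorem gg_nonneg (k l : ℕ) : 0 ≤ gg k l := by unfold gg; positivity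

theorem gg_zero (k : ℕ) : gg k 0 = 1 := by unfold gg; simp

/-- The end values: `|H_{k-l} ω(±1)| ≤ C(k,l) gg k l M`. -/
theorem end_gg {N k : ℕ} {L : Fin N → ℂ} (hL : ∀ a, ‖L a‖ ≤ 1) (hkN : k + 1 ≤ N) {l : ℕ}
    (hl : l ≤ k) {t M : ℝ} (ht : |t| = 1) (hM : |hv L k t| ≤ M) :
    |hv L (k - l) t| ≤ (k.choose l : ℝ) * gg k l * M := by
  have h := hv_end hL (i := k - l) (k := k) (by omega) (by omega) ht
  have e1 : k - (k - l) = l := by omega
  rw [e1] at h
  have hid := Nat.choose_mul (n := 2 * N) (k := k) (s := k - l) (by omega)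
  rw [e1, Nat.choose_symm hl] at hid
  have hle : (k + 2 + l).choose l ≤ (2 * N - (k - l)).choose l :=
    Nat.choose_le_choose l (by omega)
  have hidr : ((2 * N).choose k : ℝ) * (k.choose l : ℝ) =
      ((2 * N).choose (k - l) : ℝ) * ((2 * N - (k - l)).choose l : ℝ) := by exact_mod_cast hid
  have hler : ((k + 2 + l).choose l : ℝ) ≤ ((2 * N - (k - l)).choose l : ℝ) := by
    exact_mod_cast hle
  have hc1 : (0:ℝ) < ((k + 2 + l).choose l : ℝ) := by
    exact_mod_cast Nat.choose_pos (by omega)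
  have hc2 : (0:ℝ) < ((2 * N).choose k : ℝ) := by
    exact_mod_cast Nat.choose_pos (by omega)
  have hM0 : 0 ≤ M := (abs_nonneg _).trans hM
  unfold gg
  rw [mul_div_assoc', div_mul_eq_mul_div, le_div_iff₀ hc1]
  refine le_of_mul_le_mul_left ?_ hc2
  have h1 : ((2 * N).choose k : ℝ) * |hv L (k - l) t| ≤ 2 ^ l * ((2 * N).choose (k - l) : ℝ) * M :=
    h.trans (mul_le_mul_of_nonneg_left hM (by positivity))
  calc ((2 * N).choose k : ℝ) * (|hv L (k - l) t| * ((k + 2 + l).choose l : ℝ))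
      = (((2 * N).choose k : ℝ) * |hv L (k - l) t|) * ((k + 2 + l).choose l : ℝ) := by ring
    _ ≤ (2 ^ l * ((2 * N).choose (k - l) : ℝ) * M) * ((k + 2 + l).choose l : ℝ) :=
        mul_le_mul_of_nonneg_right h1 hc1.le
    _ ≤ (2 ^ l * ((2 * N).choose (k - l) : ℝ) * M) * ((2 * N - (k - l)).choose l : ℝ) :=
        mul_le_mul_of_nonneg_left hler (by positivity)
    _ = 2 ^ l * M * (((2 * N).choose (k - l) : ℝ) * ((2 * N - (k - l)).choose l : ℝ)) := by ring
    _ = ((2 * N).choose k : ℝ) * ((k.choose l : ℝ) * 2 ^ l * M) := by rw [← hidr]; ring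

/-- T1 with arbitrary end bounds `G`. -/
theorem t1_gen {N k : ℕ} {L : Fin N → ℂ} {x M : ℝ} (hx : x ∈ Icc (-1:ℝ) 1) (hM : IsM L k M)
    {j : ℕ} (hj : j ≤ k) {G : ℕ → ℝ} (hG : ∀ i, i < j → |hv L (k - j + i) 1| ≤ G i) :
    |hv L (k - j) x| ≤ (k.choose j : ℝ) * (1 - x) ^ j * M +
      ∑ i ∈ Finset.range j, ((k - j + i).choose i : ℝ) * (1 - x) ^ i * G i := by
  have h1 := taylor_abs (hseq_hv L) (y := 1) (a := -1) (b := 1) (M := M) j (k - j)
    (⟨by norm_num, le_rfl⟩ : (1:ℝ) ∈ Icc (-1:ℝ) 1) hx (by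
      intro t ht
      rw [Nat.sub_add_cancel hj]
      exact hM t ht)
  rw [Nat.sub_add_cancel hj] at h1
  have e1 : |x - 1| = 1 - x := by rw [abs_sub_comm, abs_of_nonneg (by linarith [hx.2])]
  rw [e1] at h1
  have h2 : |tay (hv L) 1 (k - j) j x| ≤
      ∑ i ∈ Finset.range j, ((k - j + i).choose i : ℝ) * (1 - x) ^ i * G i := by
    unfold tay
    refine (Finset.abs_sum_le_sum_abs _ _).trans (Finset.sum_le_sum fun i hi => ?_)
    rw [abs_mul, abs_mul, abs_pow, e1, Nat.abs_cast]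
    exact mul_le_mul_of_nonneg_left (hG i (Finset.mem_range.1 hi))
      (by have := hx.2; have : 0 ≤ 1 - x := by linarith
          positivity)
  have h3 : |hv L (k - j) x| ≤ |hv L (k - j) x - tay (hv L) 1 (k - j) j x| +
      |tay (hv L) 1 (k - j) j x| := by
    have := abs_add_le (hv L (k - j) x - tay (hv L) 1 (k - j) j x) (tay (hv L) 1 (k - j) j x)
    rwa [sub_add_cancel] at this
  rw [mul_comm ((k.choose j : ℝ)) _] at h1 ⊢
  linarith

/-- The identity `C(k-j+i, i) C(k, j-i) = C(k,j) C(j,i)`. -/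
theorem choose_id {k j i : ℕ} (hj : j ≤ k) (hi : i ≤ j) :
    ((k - j + i).choose i : ℝ) * (k.choose (j - i) : ℝ) = (k.choose j : ℝ) * (j.choose i : ℝ) := by
  have h := Nat.choose_mul (n := k) (k := j) (s := j - i) (by omega)
  -- C(k,j) C(j,j-i) = C(k,j-i) C(k-(j-i), i)
  have e1 : j - (j - i) = i := by omega
  have e2 : k - (j - i) = k - j + i := by omega
  rw [e1, e2, Nat.choose_symm hi] at h
  have h2 : ((k.choose j : ℝ)) * (j.choose i : ℝ) =
      (k.choose (j - i) : ℝ) * ((k - j + i).choose i : ℝ) := by exact_mod_cast h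
  rw [h2]; ring

/-- The T1 coefficient. -/
noncomputable def bb (k : ℕ) (x : ℝ) (j : ℕ) : ℝ :=
  ∑ i ∈ Finset.range (j + 1), ((k.choose j : ℝ) * (j.choose i : ℝ)) * (1 - x) ^ i * gg k (j - i)

theorem bb_nonneg (k : ℕ) {x : ℝ} (hx : x ≤ 1) (j : ℕ) : 0 ≤ bb k x j := by
  unfold bb
  refine Finset.sum_nonneg fun i _ => ?_
  have := gg_nonneg k (j - i)
  have : 0 ≤ 1 - x := by linarith
  positivity

/-- T1. -/
theorem t1 {N k : ℕ} {L : Fin N → ℂ} (hL : ∀ a, ‖L a‖ ≤ 1) (hkN : k + 1 ≤ N) {x M : ℝ}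
    (hx : x ∈ Icc (-1:ℝ) 1) (hM : IsM L k M) {j : ℕ} (hj : j ≤ k) :
    |hv L (k - j) x| ≤ bb k x j * M := by
  have h := t1_gen (G := fun i => (k.choose (j - i) : ℝ) * gg k (j - i) * M) hx hM hj (by
    intro i hi
    have h1 := end_gg hL hkN (l := j - i) (by omega) (t := 1) (by simp)
      (hM 1 ⟨by norm_num, le_rfl⟩)
    have e : k - (j - i) = k - j + i := by omega
    rw [e] at h1
    exact h1)
  refine h.trans (le_of_eq ?_)
  unfold bb
  rw [Finset.sum_range_succ, Nat.choose_self, Nat.sub_self, gg_zero, add_mul, Finset.sum_mul,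
    add_comm]
  congr 1
  · refine Finset.sum_congr rfl fun i hi => ?_
    have := choose_id (k := k) hj (Finset.mem_range.1 hi).le
    linear_combination ((1 - x) ^ i * gg k (j - i) * M) * this
  · push_cast
    ring

/-- The corner bound of `ω` near `1`: the end value `ω(1)` is replaced by `(1-x) H_2 ω(1)`. -/
theorem corner {N k : ℕ} {L : Fin N → ℂ} (hL : ∀ a, ‖L a‖ ≤ 1) (hkN : k + 1 ≤ N) (hk : 2 ≤ k)
    {x M : ℝ} (hx : x ∈ Icc (-1:ℝ) 1) (hM : IsM L k M) {R : Fin N}
    (hR : (1 + x) / 2 ≤ (L R).re) :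
    |hv L 0 x| ≤ (bb k x k - gg k k + (1 - x) * ((k.choose (k - 2) : ℝ) * gg k (k - 2))) * M := by
  have h := t1_gen (G := fun i => if i = 0 then
      (1 - x) * ((k.choose (k - 2) : ℝ) * gg k (k - 2) * M) else
      (k.choose (k - i) : ℝ) * gg k (k - i) * M) hx hM le_rfl (by
    intro i hi
    rw [Nat.sub_self, zero_add]
    by_cases h0 : i = 0
    · rw [if_pos h0, h0]
      have h1 := hv_corner0 hL hR
      rw [abs_of_nonneg (hv_one_nonneg hL 0)]
      refine h1.trans (mul_le_mul_of_nonneg_left ?_ (by linarith [hx.2]))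
      have h2 := end_gg hL hkN (l := k - 2) (by omega) (t := 1) (by simp)
        (hM 1 ⟨by norm_num, le_rfl⟩)
      have e : k - (k - 2) = 2 := by omega
      rw [e] at h2
      exact (le_abs_self _).trans h2
    · rw [if_neg h0]
      have h2 := end_gg hL hkN (l := k - i) (by omega) (t := 1) (by simp)
        (hM 1 ⟨by norm_num, le_rfl⟩)
      have e : k - (k - i) = i := by omega
      rw [e] at h2
      exact h2)
  rw [Nat.sub_self] at h
  refine h.trans (le_of_eq ?_)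
  unfold bb
  obtain ⟨q, rfl⟩ : ∃ q, k = q + 1 := ⟨k - 1, by omega⟩
  rw [Finset.sum_range_succ' (n := q), Finset.sum_range_succ, Finset.sum_range_succ' (n := q)]
  simp only [Nat.choose_self, Nat.sub_self, Nat.choose_zero_right, Nat.cast_one, pow_zero, one_mul,
    mul_one, Nat.sub_zero, if_true, gg_zero, zero_add]
  have e3 : ∀ i ∈ Finset.range q, ((i + 1).choose (i + 1) : ℝ) * (1 - x) ^ (i + 1) *
      (if i + 1 = 0 then (1 - x) * (((q + 1).choose (q + 1 - 2) : ℝ) * gg (q + 1) (q + 1 - 2) * M)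
        else ((q + 1).choose (q + 1 - (i + 1)) : ℝ) * gg (q + 1) (q + 1 - (i + 1)) * M) =
      (((q + 1).choose (i + 1) : ℝ) * (1 - x) ^ (i + 1) * gg (q + 1) (q + 1 - (i + 1))) * M := by
    intro i hi
    have hi' := Finset.mem_range.1 hi
    rw [if_neg (by omega), Nat.choose_self, Nat.choose_symm (by omega : i + 1 ≤ q + 1)]
    push_cast
    ring
  have e4 := Finset.sum_congr rfl e3
  simp only [Nat.choose_self, Nat.cast_one, one_mul] at e4
  rw [e4, ← Finset.sum_mul]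
  ring

end Pool.Agent.H18P1
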